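import Pool.Agent.H72.OF.Alg
import Mathlib.Topology.Algebra.MvPolynomial

/-!
# Signs and congruences

`A i`, `B j` are nonempty finite sets of words, `F` divides all `A i`, `G` divides all `B j`, and
`A i * B j = F G (1 - (1 - s) N i j)` for all `i`, `j`. We evaluate at positive integers `t`.
-/

set_option autoImplicit false

namespace Pool.Agent.H41.OF

open Finset MvPolynomial
open Pool.Agent.H35.FC (gf)
open Pool.Agent.H72.OF (sub os sub_os)

/-- A unit is `1` or `-1`. -/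
theorem unit_eq {α : Type} {p q : MvPolynomial α ℤ} (h : p * q = 1) :
    ∃ σ : ℤ, σ * σ = 1 ∧ p = C σ ∧ q = C σ := by
  have h1 : IsUnit p := IsUnit.of_mul_eq_one q h
  obtain ⟨σ, hσ, rfl⟩ := MvPolynomial.isUnit_iff_eq_C_of_isReduced.1 h1
  have h2 : σ * σ = 1 := by
    rcases Int.isUnit_iff.1 hσ with rfl | rfl <;> norm_num
  refine ⟨σ, h2, rfl, ?_⟩
  calc q = C (σ * σ) * q := by rw [h2, map_one, one_mul]
    _ = C σ * (C σ * q) := by rw [map_mul, mul_assoc]
    _ = C σ := by rw [h, mul_one]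

section
variable {α : Type} [Fintype α] [DecidableEq α] (t : α → ℕ)

/-- The value at `l t`. -/
noncomputable def evR (l : ℝ) : MvPolynomial α ℤ →+* ℝ :=
  eval₂Hom (Int.castRingHom ℝ) (fun x => l * (t x : ℝ))

omit [Fintype α] [DecidableEq α] in
theorem evR_one (p : MvPolynomial α ℤ) :
    evR t 1 p = ((eval (fun x => (t x : ℤ)) p : ℤ) : ℝ) := by
  have h : evR t 1 = (Int.castRingHom ℝ).comp (eval (fun x => (t x : ℤ))) := by
    apply ringHom_ext
    · intro r
      simp [evR]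
    · intro x
      simp [evR]
  rw [h]
  rfl

omit [Fintype α] [DecidableEq α] in
theorem evR_pos (ht : ∀ x, 1 ≤ t x) {l : ℝ} (hl : 0 < l) {L : Finset (List α)}
    (hL : L.Nonempty) : 0 < evR t l (gf L) := by
  unfold gf
  rw [map_sum]
  refine Finset.sum_pos (fun w _ => ?_) hL
  clear hL
  rename_i hwL
  clear hwL
  induction w with
  | nil => simp
  | cons x w ih =>
    rw [List.map_cons, List.prod_cons, map_mul]
    refine mul_pos ?_ ih
    simp only [evR, eval₂Hom_X']
    have : (0 : ℝ) < t x := by exact_mod_cast ht x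
    positivity

omit [Fintype α] [DecidableEq α] in
theorem evR_continuous (p : MvPolynomial α ℤ) : Continuous fun l : ℝ => evR t l p := by
  induction p using MvPolynomial.induction_on with
  | C a => simpa [evR] using continuous_const
  | add p q hp hq =>
    simp only [map_add]
    exact hp.add hq
  | mul_X p x hp =>
    simp only [map_mul]
    refine hp.mul ?_
    simp only [evR, eval₂Hom_X']
    exact continuous_id.mul continuous_const

theorem evR_sub (y : α) (hT : 2 ≤ ∑ x, t x) (p : MvPolynomial α ℤ) :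
    evR t (1 / (∑ x, t x : ℕ)) (sub y p) = evR t (1 / (∑ x, t x : ℕ)) p := by
  have hT0 : ((∑ x, t x : ℕ) : ℝ) ≠ 0 := by
    have : (0 : ℝ) < ((∑ x, t x : ℕ) : ℝ) := by
      have h2 : 0 < ∑ x, t x := by omega
      exact_mod_cast h2
    exact this.ne'
  have h : (evR t (1 / (∑ x, t x : ℕ))).comp (sub y) = evR t (1 / (∑ x, t x : ℕ)) := by
    apply ringHom_ext
    · intro r
      simp [sub, evR]
    · intro x
      rw [RingHom.comp_apply]
      by_cases hx : x = y
      · subst hx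
        have h1 : sub x (X x) = 1 - ∑ z ∈ univ.erase x, (X z : MvPolynomial α ℤ) := by
          simp [sub]
        have h2 : ∀ z : α, evR t (1 / (∑ x, t x : ℕ)) (X z) =
            (1 / (∑ x, t x : ℕ) : ℝ) * (t z : ℝ) := by
          intro z
          simp [evR]
        rw [h1, map_sub, map_one, map_sum, h2]
        simp only [h2]
        rw [← Finset.mul_sum]
        have h3 : (t x : ℝ) + ∑ z ∈ univ.erase x, (t z : ℝ) = ((∑ x, t x : ℕ) : ℝ) := by
          rw [Finset.add_sum_erase univ (fun z => (t z : ℝ)) (Finset.mem_univ x)]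
          push_cast
          rfl
        have h4 : ∑ z ∈ univ.erase x, (t z : ℝ) = ((∑ x, t x : ℕ) : ℝ) - t x := by linarith
        rw [h4]
        field_simp
        ring
      · simp [sub, evR, hx]
  exact congrArg (fun f => f p) h

/-- The value at `t`, modulo `T - 1`. -/
theorem mod_sub (y : α) (hT : 2 ≤ ∑ x, t x) (p : MvPolynomial α ℤ) :
    (((∑ x, t x : ℕ) : ℤ) - 1) ∣ eval (fun x => (t x : ℤ)) (sub y p) -
      eval (fun x => (t x : ℤ)) p := by
  have h : (((Int.castRingHom (ZMod ((∑ x, t x) - 1))).comp (eval (fun x => (t x : ℤ)))).comp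
      (sub y)) = (Int.castRingHom (ZMod ((∑ x, t x) - 1))).comp (eval (fun x => (t x : ℤ))) := by
    apply ringHom_ext
    · intro r
      simp [sub]
    · intro x
      by_cases hx : x = y
      · subst hx
        have h1 : sub x (X x) = 1 - ∑ z ∈ univ.erase x, (X z : MvPolynomial α ℤ) := by
          simp [sub]
        simp only [RingHom.comp_apply, h1, map_sub, map_one, map_sum, eval_X]
        have h3 : ((t x : ℤ) : ZMod ((∑ x, t x) - 1)) +
            ∑ z ∈ univ.erase x, ((t z : ℤ) : ZMod ((∑ x, t x) - 1)) = 1 := by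
          rw [Finset.add_sum_erase univ (fun z => ((t z : ℤ) : ZMod ((∑ x, t x) - 1)))
            (Finset.mem_univ x)]
          have h5 : (∑ z : α, ((t z : ℤ) : ZMod ((∑ x, t x) - 1))) =
              (((∑ x, t x) : ℕ) : ZMod ((∑ x, t x) - 1)) := by
            push_cast
            rfl
          rw [h5]
          obtain ⟨n, hn⟩ : ∃ n, ∑ x, t x = n + 1 := ⟨(∑ x, t x) - 1, by omega⟩
          rw [hn]
          simp
        simp only [eq_intCast]
        rw [← h3]
        ring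
      · simp [sub, hx]
  have h2 := congrArg (fun f => f p) h
  simp only [RingHom.comp_apply, eq_intCast] at h2
  have h3 : ((eval (fun x => (t x : ℤ)) (sub y p) - eval (fun x => (t x : ℤ)) p : ℤ) :
      ZMod ((∑ x, t x) - 1)) = 0 := by
    rw [Int.cast_sub, h2, sub_self]
  rw [ZMod.intCast_zmod_eq_zero_iff_dvd] at h3
  have h4 : (((∑ x, t x) - 1 : ℕ) : ℤ) = ((∑ x, t x : ℕ) : ℤ) - 1 := by
    rw [Nat.cast_sub (by omega)]
    simp
  rwa [h4] at h3

/-- The sign of `F` at `t` is the sign at `t / T`. -/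
theorem side (ht : ∀ x, 1 ≤ t x) (hT : 2 ≤ ∑ x, t x) (y : α) {ι : Type} [Nonempty ι]
    (A : ι → Finset (List α)) (hA : ∀ i, (A i).Nonempty) (F : MvPolynomial α ℤ)
    (a : ι → MvPolynomial α ℤ) (ha : ∀ i, gf (A i) = F * a i) (σ : ℤ) (hσ : σ * σ = 1)
    (hs : ∀ i, sub y (a i) = C σ) :
    0 < σ * eval (fun x => (t x : ℤ)) F ∧ ∀ i, ∃ k : ℕ, eval (fun x => (t x : ℤ)) (gf (A i)) =
      (σ * eval (fun x => (t x : ℤ)) F) * (1 + ((∑ x, t x : ℕ) - 1) * k) := by
  have hTpos : (0 : ℝ) < ((∑ x, t x : ℕ) : ℝ) := by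
    have h2 : 0 < ∑ x, t x := by omega
    exact_mod_cast h2
  obtain ⟨i0⟩ := ‹Nonempty ι›
  have hne : ∀ l : ℝ, 0 < l → evR t l F ≠ 0 := by
    intro l hl h
    have h1 := evR_pos t ht hl (hA i0)
    rw [ha i0, map_mul, h, zero_mul] at h1
    exact lt_irrefl _ h1
  have hl0 : (0 : ℝ) < 1 / (∑ x, t x : ℕ) := by positivity
  have h0 : 0 < evR t (1 / (∑ x, t x : ℕ)) F * (σ : ℝ) := by
    have h1 := evR_pos t ht hl0 (hA i0)
    rw [ha i0, map_mul, ← evR_sub t y hT (a i0), hs i0] at h1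
    simpa [evR] using h1
  have h1 : 0 < evR t 1 F * (σ : ℝ) := by
    by_contra hcon
    push Not at hcon
    have hc : Continuous fun l : ℝ => evR t l F * (σ : ℝ) :=
      (evR_continuous t F).mul continuous_const
    have h3 : (0 : ℝ) ∈ Set.uIcc (evR t (1 / (∑ x, t x : ℕ)) F * (σ : ℝ)) (evR t 1 F * (σ : ℝ)) := by
      rw [Set.mem_uIcc]
      right
      exact ⟨hcon, h0.le⟩
    obtain ⟨l, hl, hl2⟩ := intermediate_value_uIcc (hc.continuousOn) h3
    have hlpos : 0 < l := by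
      rcases Set.mem_uIcc.1 hl with h | h
      · exact lt_of_lt_of_le hl0 h.1
      · linarith [h.1]
    have hσ0 : (σ : ℝ) ≠ 0 := by
      intro h
      have h5 : σ = 0 := by exact_mod_cast h
      rw [h5] at hσ
      norm_num at hσ
    rcases mul_eq_zero.1 hl2 with h | h
    · exact hne l hlpos h
    · exact hσ0 h
  have hF : 0 < σ * eval (fun x => (t x : ℤ)) F := by
    rw [evR_one] at h1
    have h2 : ((0 : ℤ) : ℝ) < ((σ * eval (fun x => (t x : ℤ)) F : ℤ) : ℝ) := by
      push_cast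
      linarith
    exact_mod_cast h2
  refine ⟨hF, fun i => ?_⟩
  have hpos : 0 < eval (fun x => (t x : ℤ)) (gf (A i)) := by
    have h2 := evR_pos t ht one_pos (hA i)
    rw [evR_one] at h2
    exact_mod_cast h2
  have heq : eval (fun x => (t x : ℤ)) (gf (A i)) = (σ * eval (fun x => (t x : ℤ)) F) *
      (σ * eval (fun x => (t x : ℤ)) (a i)) := by
    rw [ha i, map_mul]
    linear_combination (-(eval (fun x => (t x : ℤ)) F * eval (fun x => (t x : ℤ)) (a i))) * hσ
  have hai : 0 < σ * eval (fun x => (t x : ℤ)) (a i) := by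
    rw [heq] at hpos
    exact (pos_iff_pos_of_mul_pos hpos).1 hF
  obtain ⟨c, hc⟩ := mod_sub t y hT (a i)
  rw [hs i, eval_C] at hc
  have hT1 : (1 : ℤ) ≤ ((∑ x, t x : ℕ) : ℤ) - 1 := by
    have : (2 : ℤ) ≤ ((∑ x, t x : ℕ) : ℤ) := by exact_mod_cast hT
    linarith
  have hval : σ * eval (fun x => (t x : ℤ)) (a i) =
      1 + (((∑ x, t x : ℕ) : ℤ) - 1) * (-(σ * c)) := by
    linear_combination hσ - σ * hc
  have hc0 : 0 ≤ -(σ * c) := by
    by_contra hcon
    push Not at hcon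
    nlinarith
  obtain ⟨k, hk⟩ := Int.eq_ofNat_of_zero_le hc0
  refine ⟨k, ?_⟩
  rw [heq, hval, hk]

end

theorem sign_congr {α : Type} [Fintype α] [DecidableEq α] (t : α → ℕ) (ht : ∀ x, 1 ≤ t x)
    (hT : 2 ≤ ∑ x, t x)
    {ι κ : Type} [Nonempty ι] [Nonempty κ] (A : ι → Finset (List α)) (B : κ → Finset (List α))
    (hA : ∀ i, (A i).Nonempty) (hB : ∀ j, (B j).Nonempty)
    (F G : MvPolynomial α ℤ) (N : ι → κ → MvPolynomial α ℤ) (hF : ∀ i, F ∣ gf (A i))
    (hG : ∀ j, G ∣ gf (B j)) (hFG0 : F * G ≠ 0)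
    (hGF : ∀ i j, gf (A i) * gf (B j) = F * G * (1 - os α * N i j)) :
    ∃ u v : ℕ, 1 ≤ u ∧ 1 ≤ v ∧ MvPolynomial.eval (fun x => (t x : ℤ)) (F * G) = (u : ℤ) * v ∧
      (∀ i, ∃ a : ℕ, MvPolynomial.eval (fun x => (t x : ℤ)) (gf (A i)) =
        (u : ℤ) * (1 + ((∑ x, t x : ℕ) - 1) * a)) ∧
      (∀ j, ∃ b : ℕ, MvPolynomial.eval (fun x => (t x : ℤ)) (gf (B j)) =
        (v : ℤ) * (1 + ((∑ x, t x : ℕ) - 1) * b)) := by
  obtain ⟨y⟩ : Nonempty α := by
    by_contra h
    rw [not_nonempty_iff] at h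
    rw [Finset.univ_eq_empty, Finset.sum_empty] at hT
    omega
  choose a ha using hF
  choose b hb using hG
  have hab : ∀ i j, a i * b j = 1 - os α * N i j := by
    intro i j
    have h := hGF i j
    rw [ha i, hb j] at h
    refine mul_left_cancel₀ hFG0 ?_
    rw [← h]
    ring
  have hsub : ∀ i j, sub y (a i) * sub y (b j) = 1 := by
    intro i j
    rw [← map_mul, hab, map_sub, map_one, map_mul, sub_os, zero_mul, sub_zero]
  obtain ⟨i0⟩ := ‹Nonempty ι›
  obtain ⟨j0⟩ := ‹Nonempty κ›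
  obtain ⟨σ, hσ, hi0, hj0⟩ := unit_eq (hsub i0 j0)
  have hCC : (C σ : MvPolynomial α ℤ) * C σ = 1 := by rw [← map_mul, hσ, map_one]
  have hsa : ∀ i, sub y (a i) = C σ := by
    intro i
    have h := hsub i j0
    rw [hj0] at h
    calc sub y (a i) = sub y (a i) * C σ * C σ := by rw [mul_assoc, hCC, mul_one]
      _ = C σ := by rw [h, one_mul]
  have hsb : ∀ j, sub y (b j) = C σ := by
    intro j
    have h := hsub i0 j
    rw [hi0] at h
    calc sub y (b j) = C σ * (C σ * sub y (b j)) := by rw [← mul_assoc, hCC, one_mul]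
      _ = C σ := by rw [h, mul_one]
  have : Nonempty ι := ⟨i0⟩
  have : Nonempty κ := ⟨j0⟩
  obtain ⟨hu, hua⟩ := side t ht hT y A hA F a ha σ hσ hsa
  obtain ⟨hv, hvb⟩ := side t ht hT y B hB G b hb σ hσ hsb
  obtain ⟨u, hu'⟩ := Int.eq_ofNat_of_zero_le hu.le
  obtain ⟨v, hv'⟩ := Int.eq_ofNat_of_zero_le hv.le
  refine ⟨u, v, ?_, ?_, ?_, ?_, ?_⟩
  · have : (0 : ℤ) < u := by rw [← hu']; exact hu
    exact_mod_cast this
  · have : (0 : ℤ) < v := by rw [← hv']; exact hv
    exact_mod_cast this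
  · rw [← hu', ← hv', map_mul]
    linear_combination (-(eval (fun x => (t x : ℤ)) F * eval (fun x => (t x : ℤ)) G)) * hσ
  · intro i
    obtain ⟨k, hk⟩ := hua i
    exact ⟨k, by rw [hk, hu']⟩
  · intro j
    obtain ⟨k, hk⟩ := hvb j
    exact ⟨k, by rw [hk, hv']⟩

end Pool.Agent.H41.OF
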